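import Mathlib
import Pool.Agent.KS6_51.UC.Leb3
import Pool.Agent.KS6_51.UC.Sharp

set_option autoImplicit false

namespace Pool.Agent.Results.MP_be7f84_co.FractionalCovers

open Finset MeasureTheory

universe u

/-- the projection `π_g` to the coordinates in `g` -/
def proj {d : ℕ} {X : Fin d → Type*} (g : Finset (Fin d)) (x : ∀ i, X i) :
    ∀ i : {i // i ∈ g}, X i.1 := fun i => x i.1

/-- the Shannon entropy (natural logarithm) of `π_g` of a uniformly random point of the finite
set `S` -/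
noncomputable def projEntropy {d : ℕ} {X : Fin d → Type*} [∀ i, DecidableEq (X i)]
    (S : Finset (∀ i, X i)) (g : Finset (Fin d)) : ℝ :=
  ∑ u ∈ S.image (proj g), Real.negMulLog (((S.filter (fun x => proj g x = u)).card : ℝ) / S.card)

/-- `w` is a fractional cover of `Fin d` (a family of subsets with nonnegative real weights) in
which every coordinate has degree at least `m` and any two coordinates are separated with weight
at least `σ`, where `0 < σ ≤ m`.  If `m` and `σ` are the least degree and the least separation,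
then `σ ≤ m` is automatic for `d ≥ 2`. -/
structure FractionalCover {d : ℕ} (w : Finset (Fin d) → ℝ) (m σ : ℝ) : Prop where
  nonneg : ∀ g, 0 ≤ w g
  degree : ∀ i, m ≤ ∑ g ∈ univ.filter (fun g => i ∈ g), w g
  separation : ∀ i j, i ≠ j → σ ≤ ∑ g ∈ univ.filter (fun g => i ∈ g ∧ j ∉ g), w g
  pos : 0 < σ
  le : σ ≤ m

/-- Dimension-free stability of the uniform cover inequality, for real-weighted families, for
arbitrary alphabets, in entropy form, and for Lebesgue measure; and its sharpness for every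
uniform fractional cover. -/
theorem result :
    (∃ C : ℝ, 0 < C ∧
      -- (1) the question itself: families of sets, finite subsets of `ℤ^d`
      (∀ (d : ℕ), 2 ≤ d → ∀ (G : Finset (Finset (Fin d))) (m s : ℕ),
        IsLeast (Set.range fun i : Fin d => (G.filter (fun g => i ∈ g)).card) m →
        IsLeast {c : ℕ | ∃ i j : Fin d, i ≠ j ∧
          c = (G.filter (fun g => i ∈ g ∧ j ∉ g)).card} s →
        0 < m → 0 < s →
        ∀ (ε : ℝ), 0 ≤ ε → ∀ (S : Finset (Fin d → ℤ)),
        (1 - ε) * (∏ g ∈ G, ((S.image (proj g)).card : ℝ)) ^ ((1 : ℝ) / m) ≤ S.card →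
        ∃ B : Fin d → Finset ℤ,
          ((symmDiff S (Fintype.piFinset B)).card : ℝ) ≤ C * ((m : ℝ) / s) * ε * S.card) ∧
      -- (2) real weights, finite subsets of arbitrary products
      (∀ (d : ℕ), 2 ≤ d → ∀ (w : Finset (Fin d) → ℝ) (m σ : ℝ), FractionalCover w m σ →
        ∀ (X : Fin d → Type u) [∀ i, DecidableEq (X i)] (ε : ℝ), 0 ≤ ε →
        ∀ (S : Finset (∀ i, X i)),
        (1 - ε) * (∏ g, ((S.image (proj g)).card : ℝ) ^ w g) ^ (1 / m) ≤ S.card →
        ∃ B : ∀ i, Finset (X i),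
          ((symmDiff S (Fintype.piFinset B)).card : ℝ) ≤ C * (m / σ) * ε * S.card) ∧
      -- (3) stability of Shearer's entropy inequality `m log |S| ≤ ∑ w_g H(π_g)`
      (∀ (d : ℕ), 2 ≤ d → ∀ (w : Finset (Fin d) → ℝ) (m σ : ℝ), FractionalCover w m σ →
        ∀ (X : Fin d → Type u) [∀ i, DecidableEq (X i)] (S : Finset (∀ i, X i)), S.Nonempty →
        ∃ B : ∀ i, Finset (X i), ((symmDiff S (Fintype.piFinset B)).card : ℝ)
          ≤ C / σ * (∑ g, w g * projEntropy S g - m * Real.log S.card) * S.card) ∧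
      -- (4) Lebesgue measurable sets of finite measure, uniform fractional covers
      (∀ (d : ℕ), 2 ≤ d → ∀ (w : Finset (Fin d) → ℝ) (m σ : ℝ), FractionalCover w m σ →
        (∀ i, ∑ g ∈ univ.filter (fun g => i ∈ g), w g = m) →
        ∀ (ε : ℝ), 0 ≤ ε →
        ∀ (S : Set (Fin d → ℝ)), NullMeasurableSet S → volume S ≠ ⊤ →
        ENNReal.ofReal (1 - ε) * (∏ g : Finset (Fin d), volume (proj g '' S) ^ w g) ^ (1 / m)
          ≤ volume S →
        ∃ B : Fin d → Set ℝ, (∀ i, MeasurableSet (B i)) ∧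
          volume (symmDiff S (Set.univ.pi B)) ≤ ENNReal.ofReal (C * (m / σ) * ε) * volume S)) ∧
    -- (5) for every uniform fractional cover the bound is optimal up to the constant
    (∀ (d : ℕ) (w : Finset (Fin d) → ℝ) (m σ : ℝ), (∀ g, 0 ≤ w g) →
      (∀ i, ∑ g ∈ univ.filter (fun g => i ∈ g), w g = m) →
      IsLeast {c : ℝ | ∃ i j : Fin d, i ≠ j ∧
        c = ∑ g ∈ univ.filter (fun g => i ∈ g ∧ j ∉ g), w g} σ → 0 < σ →
      ∀ (ε : ℝ), 0 < ε → ε ≤ σ / (2 * m) →
      ∃ S : Finset (Fin d → ℤ), S.Nonempty ∧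
        (1 - ε) * (∏ g, ((S.image (proj g)).card : ℝ) ^ w g) ^ (1 / m) ≤ S.card ∧
        ∀ B : Fin d → Finset ℤ,
          1 / 8 * (m / σ) * ε * S.card ≤ ((symmDiff S (Fintype.piFinset B)).card : ℝ)) := by
  classical
  have hC0 := KS6_51.UC.C0_pos
  refine ⟨⟨4 * KS6_51.UC.C0, by positivity, ?_, ?_, ?_, ?_⟩, ?_⟩
  · -- (1)
    intro d hd G m s hm hs hm0 hs0 ε hε S hS
    have hcnt : ∀ (P : Finset (Fin d) → Prop) [DecidablePred P],
        ∑ g ∈ univ.filter P, (if g ∈ G then (1 : ℝ) else 0) = (G.filter P).card := by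
      intro P _
      rw [← sum_filter, sum_const, nsmul_eq_mul, mul_one]
      congr 2
      ext g
      simp [and_comm]
    have hexj : ∀ i : Fin d, ∃ j : Fin d, i ≠ j := by
      intro i
      have : Nontrivial (Fin d) := Fin.nontrivial_iff_two_le.mpr hd
      obtain ⟨j, hj⟩ := exists_ne i
      exact ⟨j, hj.symm⟩
    have hsm : s ≤ m := by
      obtain ⟨i, hi⟩ := hm.1
      obtain ⟨j, hij⟩ := hexj i
      rw [← hi]
      refine (hs.2 ⟨i, j, hij, rfl⟩).trans (card_le_card ?_)
      intro g hg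
      rw [mem_filter] at hg ⊢
      exact ⟨hg.1, hg.2.1⟩
    have hprod : ∏ g : Finset (Fin d), ((S.image (proj g)).card : ℝ) ^ (if g ∈ G then (1 : ℝ) else 0)
        = ∏ g ∈ G, ((S.image (proj g)).card : ℝ) := by
      have h1 : ∀ g ∈ (univ : Finset (Finset (Fin d))),
          ((S.image (proj g)).card : ℝ) ^ (if g ∈ G then (1 : ℝ) else 0)
          = if g ∈ G then ((S.image (proj g)).card : ℝ) else 1 := by
        intro g _
        split_ifs
        · exact Real.rpow_one _
        · exact Real.rpow_zero _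
      rw [prod_congr rfl h1, prod_ite_mem, univ_inter]
    have key := KS6_51.UC.alph_card (X := fun _ : Fin d => ℤ) hd
      (fun g => if g ∈ G then (1 : ℝ) else 0) (fun g => by positivity) (m : ℝ) (s : ℝ)
      (by exact_mod_cast hs0) (by exact_mod_cast hsm)
      (fun i => by
        rw [hcnt (fun g => i ∈ g)]
        exact_mod_cast hm.2 ⟨i, rfl⟩)
      (fun i j hij => by
        rw [hcnt (fun g => i ∈ g ∧ j ∉ g)]
        exact_mod_cast hs.2 ⟨i, j, hij, rfl⟩) ε hε S
      (by
        have h2 : (1 - ε) * (∏ g : Finset (Fin d),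
            ((S.image (proj g)).card : ℝ) ^ (if g ∈ G then (1 : ℝ) else 0)) ^ ((1 : ℝ) / m)
            ≤ S.card := by
          rw [hprod]; exact hS
        exact h2)
    obtain ⟨B, hB⟩ := key
    refine ⟨B, hB.trans ?_⟩
    have hρ : (0 : ℝ) ≤ (m : ℝ) / s := by positivity
    have h3 : 0 ≤ KS6_51.UC.C0 * ((m : ℝ) / s) * ε * S.card := by positivity
    nlinarith
  · -- (2)
    intro d hd w m σ hw X _ ε hε S hS
    obtain ⟨B, hB⟩ := KS6_51.UC.alph_card hd w hw.nonneg m σ hw.pos hw.le hw.degree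
      hw.separation ε hε S hS
    refine ⟨B, hB.trans ?_⟩
    have h1 := hw.pos
    have h2 : 0 < m := lt_of_lt_of_le h1 hw.le
    have h3 : 0 ≤ KS6_51.UC.C0 * (m / σ) * ε * S.card := by positivity
    nlinarith
  · -- (3)
    intro d hd w m σ hw X _ S hS
    obtain ⟨B, hB⟩ := KS6_51.UC.alph_ent S hd w hw.nonneg m σ hw.pos hw.le hw.degree
      hw.separation hS
    refine ⟨B, ?_⟩
    have h1 := hw.pos
    have hB' : σ * ((symmDiff S (Fintype.piFinset B)).card : ℝ)
        ≤ KS6_51.UC.C0 * (∑ g, w g * projEntropy S g - m * Real.log S.card) * S.card := hB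
    have h0 : (0 : ℝ) ≤ σ * ((symmDiff S (Fintype.piFinset B)).card : ℝ) := by positivity
    have h2 : 4 * KS6_51.UC.C0 / σ * (∑ g, w g * projEntropy S g - m * Real.log S.card) * S.card
        = 4 * (KS6_51.UC.C0 * (∑ g, w g * projEntropy S g - m * Real.log S.card) * S.card) / σ := by
      ring
    rw [h2, le_div_iff₀ h1, mul_comm]
    linarith
  · -- (4)
    intro d hd w m σ hw hu ε hε S hS hfin h
    exact KS6_51.UC.leb hd w hw.nonneg m σ hw.pos hu hw.separation ε hε S hS hfin h
  · -- (5)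
    intro d w m σ hw hm hσ hσ0 ε hε hε2
    obtain ⟨⟨i, j, hij, hσij⟩, _⟩ := hσ
    exact KS6_51.UC.sharp w hw m σ hm i j hij hσij.symm hσ0 ε hε hε2

end Pool.Agent.Results.MP_be7f84_co.FractionalCovers
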